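import Pool.Agent.helper62.RP.Spec

set_option autoImplicit false

/-!
# RED: reduction of products in the double of the free group
-/

open Polynomial Filter
open Pool.Agent.QU

namespace Pool.Agent.RP

theorem RED_flip {G : Type} [Group G] (j : Bool → F2 →* G) (hj : j false w0 = j true w0) {y : F2}
    (hy : y ∈ Subgroup.zpowers w0) (s t : Bool) : j s y = j t y := by
  obtain ⟨k, rfl⟩ := Subgroup.mem_zpowers_iff.1 hy
  cases s <;> cases t <;> simp [map_zpow, hj]

/-- nonempty reduced lists -/
theorem RED_cons {G : Type} [Group G] (j : Bool → F2 →* G) (hj : j false w0 = j true w0)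
    (e : Bool) (y : F2) (e' : Bool) (y' : F2) (m : List (Bool × F2))
    (hc : List.IsChain (fun s t : Bool × F2 => s.1 ≠ t.1) ((e', y') :: m))
    (hp : ∀ s ∈ (e', y') :: m, s.2 ∉ Subgroup.zpowers w0) :
    ∃ l' : List (Bool × F2),
      (l'.map (fun s => j s.1 s.2)).prod =
        j e y * (((e', y') :: m).map (fun s => j s.1 s.2)).prod ∧
      (l'.map (fun s => s.2.norm)).sum ≤
        y.norm + (((e', y') :: m).map (fun s => s.2.norm)).sum ∧
      (l'.length ≤ 1 ∨ (List.IsChain (fun s t : Bool × F2 => s.1 ≠ t.1) l' ∧
        ∀ s ∈ l', s.2 ∉ Subgroup.zpowers w0)) := by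
  have hy' : y' ∉ Subgroup.zpowers w0 := hp (e', y') (List.mem_cons_self ..)
  have hpm : ∀ s ∈ m, s.2 ∉ Subgroup.zpowers w0 := fun s hs => hp s (List.mem_cons_of_mem _ hs)
  have hn := FreeGroup.norm_mul_le y y'
  by_cases h1 : y ∈ Subgroup.zpowers w0 ∨ e = e'
  · have hm : j e y * j e' y' = j e' (y * y') := by
      rw [map_mul]
      rcases h1 with h1 | h1
      · rw [RED_flip j hj h1 e e']
      · rw [h1]
    by_cases hz : y * y' ∈ Subgroup.zpowers w0
    · rcases m with _ | ⟨⟨e'', y''⟩, m'⟩
      · refine ⟨[(e', y * y')], ?_, ?_, Or.inl (by simp)⟩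
        · simp only [List.map_cons, List.map_nil, List.prod_cons, List.prod_nil, mul_one]
          exact hm.symm
        · simp only [List.map_cons, List.map_nil, List.sum_cons, List.sum_nil]
          omega
      · have hy'' : y'' ∉ Subgroup.zpowers w0 := hpm (e'', y'') (List.mem_cons_self ..)
        have hzz : y * y' * y'' ∉ Subgroup.zpowers w0 := by
          intro h3
          exact hy'' ((Subgroup.mul_mem_cancel_left _ hz).1 h3)
        have hc2 : List.IsChain (fun s t : Bool × F2 => s.1 ≠ t.1) ((e'', y'') :: m') :=
          (List.isChain_cons_cons.1 hc).2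
        have hc3 : List.IsChain (fun s t : Bool × F2 => s.1 ≠ t.1) ((e'', y * y' * y'') :: m') := by
          rcases m' with _ | ⟨u, m''⟩
          · exact List.isChain_singleton _
          · rw [List.isChain_cons_cons] at hc2 ⊢
            exact hc2
        refine ⟨(e'', y * y' * y'') :: m', ?_, ?_, Or.inr ⟨hc3, ?_⟩⟩
        · simp only [List.map_cons, List.prod_cons]
          rw [← mul_assoc (j e y), hm, RED_flip j hj hz e' e'', map_mul (j e'') (y * y') y'',
            mul_assoc]
        · simp only [List.map_cons, List.sum_cons]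
          have := FreeGroup.norm_mul_le (y * y') y''
          omega
        · intro s hs
          rcases List.mem_cons.1 hs with rfl | hs
          · exact hzz
          · exact hpm s (List.mem_cons_of_mem _ hs)
    · have hc3 : List.IsChain (fun s t : Bool × F2 => s.1 ≠ t.1) ((e', y * y') :: m) := by
        rcases m with _ | ⟨u, m''⟩
        · exact List.isChain_singleton _
        · rw [List.isChain_cons_cons] at hc ⊢
          exact hc
      refine ⟨(e', y * y') :: m, ?_, ?_, Or.inr ⟨hc3, ?_⟩⟩
      · simp only [List.map_cons, List.prod_cons]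
        rw [← mul_assoc (j e y), hm]
      · simp only [List.map_cons, List.sum_cons]
        omega
      · intro s hs
        rcases List.mem_cons.1 hs with rfl | hs
        · exact hz
        · exact hpm s hs
  · rw [not_or] at h1
    refine ⟨(e, y) :: (e', y') :: m, ?_, ?_, Or.inr ⟨?_, ?_⟩⟩
    · simp only [List.map_cons, List.prod_cons]
    · simp only [List.map_cons, List.sum_cons]
      exact le_rfl
    · rw [List.isChain_cons_cons]
      exact ⟨h1.2, hc⟩
    · intro s hs
      rcases List.mem_cons.1 hs with rfl | hs
      · exact h1.1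
      · exact hp s hs

theorem RED : RED_stmt := by
  intro G _ j hj l
  induction l with
  | nil => exact ⟨[], rfl, le_rfl, Or.inl (by simp)⟩
  | cons a t ih =>
    obtain ⟨e, y⟩ := a
    obtain ⟨l', h1, h2, h3⟩ := ih
    have key : ∃ l'' : List (Bool × F2),
        (l''.map (fun s => j s.1 s.2)).prod = j e y * (l'.map (fun s => j s.1 s.2)).prod ∧
        (l''.map (fun s => s.2.norm)).sum ≤ y.norm + (l'.map (fun s => s.2.norm)).sum ∧
        (l''.length ≤ 1 ∨ (List.IsChain (fun s t : Bool × F2 => s.1 ≠ t.1) l'' ∧
          ∀ s ∈ l'', s.2 ∉ Subgroup.zpowers w0)) := by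
      rcases l' with _ | ⟨⟨e', y'⟩, m⟩
      · refine ⟨[(e, y)], ?_, ?_, Or.inl (by simp)⟩
        · simp
        · simp
      · rcases h3 with h3 | h3
        · have hm : m = [] := by
            rw [List.length_cons] at h3
            exact List.length_eq_zero_iff.1 (by omega)
          subst hm
          by_cases hy' : y' ∈ Subgroup.zpowers w0
          · refine ⟨[(e, y * y')], ?_, ?_, Or.inl (by simp)⟩
            · simp only [List.map_cons, List.map_nil, List.prod_cons, List.prod_nil, mul_one]
              rw [map_mul, RED_flip j hj hy' e e']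
            · simp only [List.map_cons, List.map_nil, List.sum_cons, List.sum_nil]
              have := FreeGroup.norm_mul_le y y'
              omega
          · refine RED_cons j hj e y e' y' [] (List.isChain_singleton _) ?_
            intro s hs
            rw [List.mem_singleton] at hs
            rw [hs]
            exact hy'
        · exact RED_cons j hj e y e' y' m h3.1 h3.2
    obtain ⟨l'', k1, k2, k3⟩ := key
    refine ⟨l'', ?_, ?_, k3⟩
    · rw [k1, h1, List.map_cons, List.prod_cons]
    · rw [List.map_cons, List.sum_cons]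
      show _ ≤ y.norm + _
      omega

end Pool.Agent.RP
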